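import Pool.Agent.Helper91.SY.Goals

/-!
# Packet SY-TO: the flow of a function which is linear at infinity
-/

set_option autoImplicit false

open Set Filter Topology
open scoped ContDiff NNReal

namespace Pool.Agent.Helper79.SY

open Pool.Agent.Helper91.SY

/-- a smooth vector field which is constant at infinity is Lipschitz -/
theorem lip_of_far {E : Type} [NormedAddCommGroup E] [NormedSpace ℝ E] [FiniteDimensional ℝ E]
    (X : E → E) (R : ℝ) (e : E) (hX : ContDiff ℝ ∞ X) (hfar : ∀ x, R ≤ ‖x‖ → X x = e) :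
    ∃ K : ℝ≥0, LipschitzWith K X := by
  have h1 : HasCompactSupport (fun x => X x - e) := by
    refine HasCompactSupport.intro (isCompact_closedBall (0 : E) R) ?_
    intro x hx
    have : R < ‖x‖ := by
      simpa [Metric.mem_closedBall, dist_zero_right] using hx
    simp [hfar x this.le]
  have h2 : ContDiff ℝ ∞ (fun x => X x - e) := hX.sub contDiff_const
  obtain ⟨K, hK⟩ := ContDiff.lipschitzWith_of_hasCompactSupport h1 h2 (by simp)
  refine ⟨K, ?_⟩
  intro x y
  have := hK x y
  simpa [edist_dist, dist_eq_norm] using this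

theorem to_ (hGE : StmtGE) (hSM : StmtSM) (hHV : StmtHV) (hFP : StmtFP) : StmtTO := by
  intro E _ _ _ B B0 R f ℓ e hR hB hfar hf hfℓ heℓ
  obtain ⟨X, hX, hXH⟩ := hHV E B f hB hf
  -- X is constant at infinity
  have hXe : ∀ x, R + 1 ≤ ‖x‖ → X x = e := by
    intro x hx
    have hopen : IsOpen {y : E | R < ‖y‖} := isOpen_lt continuous_const continuous_norm
    have hmem : x ∈ {y : E | R < ‖y‖} := by
      show R < ‖x‖
      linarith
    have hev : f =ᶠ[𝓝 x] fun y => ℓ y := by
      filter_upwards [hopen.mem_nhds hmem] with y hy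
      exact hfℓ y (le_of_lt hy)
    have hfd : fderiv ℝ f x = ℓ := by
      rw [hev.fderiv_eq]
      exact ℓ.fderiv
    have hBx : B x = B0 := hfar x (by linarith)
    have : X x - e = 0 := by
      refine hB.nondeg x (X x - e) ?_
      intro v
      have h1 := hXH x v
      rw [hfd] at h1
      rw [map_sub, sub_apply, h1, hBx, heℓ v, sub_self]
    exact sub_eq_zero.mp this
  obtain ⟨Φ, hΦ0, hΦd⟩ := hGE E X (R + 1) e hX hXe
  have hflow : Flow X Φ := hSM E X (R + 1) e Φ hX hXe hΦ0 hΦd
  obtain ⟨K, hK⟩ := lip_of_far X (R + 1) e hX hXe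
  -- group law
  have hgrp : ∀ s t x, Φ (s + t) x = Φ s (Φ t x) := by
    intro s t x
    have h := ODE_solution_unique_univ (v := fun _ => X) (s := fun _ => univ) (K := K)
      (f := fun r => Φ (r + t) x) (g := fun r => Φ r (Φ t x)) (t₀ := 0)
      (fun _ => hK.lipschitzOnWith) (fun r => ⟨by
        have := (hΦd (r + t) x).comp_add_const r t
        exact this, mem_univ _⟩) (fun r => ⟨hΦd r (Φ t x), mem_univ _⟩) (by simp [hΦ0])
    exact congrFun h s
  let g : E ≃ E :=
    { toFun := fun x => Φ 1 x
      invFun := fun x => Φ (-1) x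
      left_inv := fun x => by
        show Φ (-1) (Φ 1 x) = x
        rw [← hgrp, neg_add_cancel, hΦ0]
      right_inv := fun x => by
        show Φ 1 (Φ (-1) x) = x
        rw [← hgrp, add_neg_cancel, hΦ0] }
  have hsm : ∀ t : ℝ, ContDiff ℝ ∞ (fun x => Φ t x) := by
    intro t
    exact hflow.smooth.comp (contDiff_const.prodMk contDiff_id)
  have hpull : ∀ t, Pull (Φ t) B B := fun t => (hFP E B f X Φ hB hf hX hXH hflow t).1
  refine ⟨X, Φ, g, hX, hXH, hXe, hflow, hpull, fun _ => rfl, fun _ => rfl, ⟨hsm 1, hsm (-1)⟩,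
    hpull 1, ?_⟩
  intro x hx
  show Φ 1 x = x + e
  have h := ODE_solution_unique (v := fun _ => X) (K := K) (f := fun t => Φ t x)
    (g := fun t : ℝ => x + t • e) (a := 0) (b := 1) (fun _ => hK)
    (fun t _ => (hΦd t x).continuousAt.continuousWithinAt)
    (fun t _ => (hΦd t x).hasDerivWithinAt)
    (by fun_prop)
    (fun t ht => by
      have hn : R + 1 ≤ ‖x + t • e‖ := by
        have h1 : ‖x‖ ≤ ‖x + t • e‖ + ‖t • e‖ := by
          have := norm_sub_le (x + t • e) (t • e)
          simpa using this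
        have h2 : ‖t • e‖ ≤ ‖e‖ := by
          rw [norm_smul, Real.norm_eq_abs, abs_of_nonneg ht.1]
          have := mul_le_mul_of_nonneg_right ht.2.le (norm_nonneg e)
          linarith
        linarith
      show HasDerivWithinAt (fun t : ℝ => x + t • e) (X (x + t • e)) (Ici t) t
      rw [hXe _ hn]
      have h3 : HasDerivAt (fun t : ℝ => x + t • e) ((1 : ℝ) • e) t :=
        ((hasDerivAt_id t).smul_const e).const_add x
      rw [one_smul] at h3
      exact h3.hasDerivWithinAt)
    (by simp [hΦ0])
  have := h (right_mem_Icc.mpr zero_le_one)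
  simpa using this

end Pool.Agent.Helper79.SY
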